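import Pool.Agent.helper169_cat.Asm2
import Pool.Agent.helper169_cat.Uni
import Pool.Agent.helper169_cat.Lim3
import Pool.Agent.helper169_cat.Mach2

/-!
# CAT(0) groups all of whose parallel sets have subexponential growth coarsely embed into Hilbert
space
-/

set_option autoImplicit false

open Filter

universe u v

namespace Pool.Agent.Results.MP_3abe50_al.SubexpParallel

/-- `c`, restricted to `[0, 1]`, is a geodesic from `x` to `y` parametrised proportionally to arc
length. -/
def IsGeodesic {X : Type u} [MetricSpace X] (c : ℝ → X) (x y : X) : Prop :=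
  c 0 = x ∧ c 1 = y ∧ ∀ s ∈ Set.Icc (0 : ℝ) 1, ∀ t ∈ Set.Icc (0 : ℝ) 1,
    dist (c s) (c t) = |s - t| * dist x y

/-- `X` is a CAT(0) space: it is geodesic and the distance from a point `z` to a point of a geodesic
`c` from `x` to `y` is at most the distance of the corresponding points in the Euclidean plane. -/
structure IsCAT0 (X : Type u) [MetricSpace X] : Prop where
  geodesic : ∀ x y : X, ∃ c : ℝ → X, IsGeodesic c x y
  comparison : ∀ (x y : X) (c : ℝ → X), IsGeodesic c x y → ∀ z : X, ∀ t ∈ Set.Icc (0 : ℝ) 1,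
    dist z (c t) ^ 2 ≤ (1 - t) * dist z x ^ 2 + t * dist z y ^ 2 - t * (1 - t) * dist x y ^ 2

/-- The parallel set of the geodesic line `l`: the union of the geodesic lines at bounded distance
from `l` (as parametrised lines). -/
def ParallelSet {X : Type u} [MetricSpace X] (l : ℝ → X) : Set X :=
  {x | ∃ l' : ℝ → X, Isometry l' ∧ (∃ B : ℝ, ∀ s : ℝ, dist (l s) (l' s) ≤ B) ∧ l' 0 = x}

/-- The set `P` has subexponential growth: for every `ε > 0` and all large `R`, every `1`-separated
finite set of points of `P` in the ball of radius `R` around `p` has at most `exp (ε R)` elements. -/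
def SubexpGrowth {X : Type u} [MetricSpace X] (P : Set X) (p : X) : Prop :=
  ∀ ε : ℝ, 0 < ε → ∃ R₀ : ℝ, ∀ R : ℝ, R₀ ≤ R → ∀ A : Finset X,
    (∀ x ∈ A, x ∈ P ∧ dist x p ≤ R) → (∀ x ∈ A, ∀ y ∈ A, x ≠ y → 1 ≤ dist x y) →
    (A.card : ℝ) ≤ Real.exp (ε * R)

/-- Let `G` act by isometries, properly and cocompactly on a proper CAT(0) space `X` such that the
parallel set of every geodesic line of `X` has subexponential growth. Then the word metric of `G`
admits a coarse embedding into the Hilbert space `ℓ²`. -/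
theorem result (G : Type v) [Group G] (X : Type u) [MetricSpace X] [ProperSpace X] [Nonempty X]
    [MulAction G X] [IsIsometricSMul G X] (hX : IsCAT0 X)
    (proper : ∀ (x : X) (r : ℝ), {g : G | dist (g • x) x ≤ r}.Finite)
    (cocompact : ∃ K : Set X, IsCompact K ∧ ∀ x : X, ∃ g : G, g • x ∈ K)
    (growth : ∀ l : ℝ → X, Isometry l → SubexpGrowth (ParallelSet l) (l 0))
    (S : Finset G) (Γ : SimpleGraph G) (hS : Subgroup.closure (S : Set G) = ⊤)
    (hΓ : Γ = SimpleGraph.fromRel (fun a b : G => a⁻¹ * b ∈ S)) :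
    ∃ (f : G → lp (fun _ : ℕ => ℝ) 2) (r₁ r₂ : ℕ → ℝ), Tendsto r₁ atTop atTop ∧
      ∀ g h, r₁ (Γ.dist g h) ≤ ‖f g - f h‖ ∧ ‖f g - f h‖ ≤ r₂ (Γ.dist g h) := by
  have hcat : Pool.Agent.H169C.Cat X := by
    intro x y t h0 h1
    obtain ⟨c, hc⟩ := hX.geodesic x y
    exact ⟨c t, fun z => hX.comparison x y c hc z t ⟨h0, h1⟩⟩
  have hact : Pool.Agent.H169C.Act G X (∅ : Set X) :=
    { proper := inferInstance
      isom := inferInstance
      cat := hcat
      cc := cocompact
      disc := proper
      inv := fun g v hv => hv.elim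
      fin := fun x r => by rw [Set.empty_inter]; exact Set.finite_empty }
  obtain ⟨x0⟩ := ‹Nonempty X›
  exact Pool.Agent.H169C.asm2 Pool.Agent.H169C.t_UNI Pool.Agent.H169C.t_LIM3
    Pool.Agent.H169C.t_MACH2 G hact growth x0 S Γ hS hΓ

end Pool.Agent.Results.MP_3abe50_al.SubexpParallel
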