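import Pool.Agent.helper169_cat.Asm
import Pool.Agent.helper169_cat.Lim1
import Pool.Agent.helper169_cat.Lim2
import Pool.Agent.helper169_cat.Mach
import Pool.Agent.helper169_cat.Poly

/-!
# Groups acting geometrically on 2-dimensional piecewise Euclidean CAT(0) complexes coarsely embed
into Hilbert space
-/

set_option autoImplicit false

open Filter

universe u v

namespace Pool.Agent.Results.MP_3abe50_al.TwoDimCat0

/-- `c`, restricted to `[0, 1]`, is a geodesic from `x` to `y` parametrised proportionally to arc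
length. -/
def IsGeodesic {X : Type u} [MetricSpace X] (c : ℝ → X) (x y : X) : Prop :=
  c 0 = x ∧ c 1 = y ∧ ∀ s ∈ Set.Icc (0 : ℝ) 1, ∀ t ∈ Set.Icc (0 : ℝ) 1,
    dist (c s) (c t) = |s - t| * dist x y

/-- `X` is a CAT(0) space: it is geodesic and the distance from a point `z` to a point of a geodesic
`c` from `x` to `y` is at most the distance of the corresponding points in the Euclidean plane. -/
structure IsCAT0 (X : Type u) [MetricSpace X] : Prop where
  geodesic : ∀ x y : X, ∃ c : ℝ → X, IsGeodesic c x y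
  comparison : ∀ (x y : X) (c : ℝ → X), IsGeodesic c x y → ∀ z : X, ∀ t ∈ Set.Icc (0 : ℝ) 1,
    dist z (c t) ^ 2 ≤ (1 - t) * dist z x ^ 2 + t * dist z y ^ 2 - t * (1 - t) * dist x y ^ 2

/-- The geodesic segment between `a` and `b`. -/
def Seg {X : Type u} [MetricSpace X] (a b : X) : Set X := {z | dist a z + dist z b = dist a b}

/-- `V` and `E` are the vertices and the edges (geodesic segments given by their end points) of a
piecewise Euclidean structure of dimension at most `2` on `X`: the vertices are locally finite, the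
edges have length at most `L` and meet only in vertices, and every point of `X` which is on no edge
and is not a vertex has a ball which is isometric to a subset of the Euclidean plane. -/
structure IsEuclidean2Complex (X : Type u) [MetricSpace X] (V : Set X) (E : Set (X × X)) (L : ℝ) :
    Prop where
  locally_finite : ∀ (x : X) (r : ℝ), (V ∩ Metric.closedBall x r).Finite
  edges : ∀ e ∈ E, e.1 ∈ V ∧ e.2 ∈ V ∧ dist e.1 e.2 ≤ L
  edges_meet : ∀ e ∈ E, ∀ e' ∈ E, e ≠ e' → Seg e.1 e.2 ∩ Seg e'.1 e'.2 ⊆ V
  flat : ∀ z : X, z ∉ V → (∀ e ∈ E, z ∉ Seg e.1 e.2) → ∃ ε : ℝ, 0 < ε ∧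
    ∃ φ : X → EuclideanSpace ℝ (Fin 2), ∀ x ∈ Metric.ball z ε, ∀ y ∈ Metric.ball z ε,
      dist (φ x) (φ y) = dist x y

/-- Every finitely generated group `G` acting by isometries, properly and cocompactly on a proper
CAT(0) space `X` with a piecewise Euclidean structure of dimension at most `2` whose set of vertices
is invariant admits a coarse embedding of its word metric into the Hilbert space `ℓ²`. -/
theorem result (G : Type v) [Group G] (X : Type u) [MetricSpace X] [ProperSpace X] [Nonempty X]
    [MulAction G X] [IsIsometricSMul G X] (V : Set X) (E : Set (X × X)) (L : ℝ)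
    (hX : IsCAT0 X) (hVE : IsEuclidean2Complex X V E L) (hV : ∀ (g : G), ∀ x ∈ V, g • x ∈ V)
    (proper : ∀ (x : X) (r : ℝ), {g : G | dist (g • x) x ≤ r}.Finite)
    (cocompact : ∃ K : Set X, IsCompact K ∧ ∀ x : X, ∃ g : G, g • x ∈ K)
    (S : Finset G) (Γ : SimpleGraph G) (hS : Subgroup.closure (S : Set G) = ⊤)
    (hΓ : Γ = SimpleGraph.fromRel (fun a b : G => a⁻¹ * b ∈ S)) :
    ∃ (f : G → lp (fun _ : ℕ => ℝ) 2) (r₁ r₂ : ℕ → ℝ), Tendsto r₁ atTop atTop ∧
      ∀ g h, r₁ (Γ.dist g h) ≤ ‖f g - f h‖ ∧ ‖f g - f h‖ ≤ r₂ (Γ.dist g h) := by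
  have hcat : Pool.Agent.H169C.Cat X := by
    intro x y t h0 h1
    obtain ⟨c, hc⟩ := hX.geodesic x y
    exact ⟨c t, fun z => hX.comparison x y c hc z t ⟨h0, h1⟩⟩
  have hflat : Pool.Agent.H169C.Flat2 X V E (max L 0) :=
    { fin := hVE.locally_finite
      ends := fun e he => ⟨(hVE.edges e he).1, (hVE.edges e he).2.1,
        (hVE.edges e he).2.2.trans (le_max_left _ _)⟩
      meet := hVE.edges_meet
      flat := hVE.flat }
  have hact : Pool.Agent.H169C.Act G X V :=
    { proper := inferInstance
      isom := inferInstance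
      cat := hcat
      cc := cocompact
      disc := proper
      inv := hV
      fin := hVE.locally_finite }
  obtain ⟨x0⟩ := ‹Nonempty X›
  exact Pool.Agent.H169C.asm Pool.Agent.H169C.t_LIM1 Pool.Agent.H169C.t_LIM2
    Pool.Agent.H169C.t_MACH G V (max L 0 + 1) hact
    (Pool.Agent.H169C.t_POLY1 X V E _ hcat hflat) (Pool.Agent.H169C.t_POLY2 X V E _ hcat hflat)
    (by positivity) x0 S Γ hS hΓ

end Pool.Agent.Results.MP_3abe50_al.TwoDimCat0
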